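import Mathlib
import Pool.Agent.Helper49.ND.Defs
import Pool.Agent.Helper49.ND.Main

set_option autoImplicit false
open MeasureTheory Filter Topology Set Metric
open scoped NNReal ENNReal
open Pool.Agent.Helper49.ND.Defs

namespace Pool.Agent.Results.MP_f88263_an.EtaUnbounded

/-- For every dimension `d ≥ 1` and every `0 < η < 1` there are a measure `μ` of polynomial growth,
a Calderon-Zygmund operator `T` bounded on `L²(μ)` and a weight `w` with finite `A_2^η(μ)`
characteristic such that `T` is not bounded on `L²(w dμ)`. In particular no inequality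
`‖T‖ ≤ C [w]` can hold, whatever the constant `C` is. -/
theorem result (d : ℕ) (hd : 1 ≤ d) (η : ℝ) (h0 : 0 < η) (h1 : η < 1) :
    ∃ (μ : Measure (E d)) (K : E d → E d → ℂ) (T : (E d → ℂ) → E d → ℂ) (w : E d → ℝ),
      IsGrowthMeasure μ ∧ IsCZKernel K ∧ IsL2Operator μ T ∧ IsAssociated μ K T ∧ IsWeight μ w ∧
        A2char η μ w < ⊤ ∧ ∀ A : ℝ≥0∞, A < ⊤ → ¬ WeightedBound μ w T A := by
  refine ⟨Pool.Agent.Helper49.ND.Meas.mu d, Pool.Agent.Helper49.ND.Ker.K,
    Pool.Agent.Helper49.ND.TOp.T, Pool.Agent.Helper49.ND.Fin.wt hd η,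
    Pool.Agent.Helper49.ND.Meas.mu_growth d, Pool.Agent.Helper49.ND.Ker.K_cz d,
    Pool.Agent.Helper49.ND.TOp.T_L2 hd, Pool.Agent.Helper49.ND.TOp.T_assoc,
    Pool.Agent.Helper49.ND.Fin.wt_weight hd h0, ?_, fun A hA =>
      Pool.Agent.Helper49.ND.Main.not_bounded hd h0 h1 A hA⟩
  exact (Pool.Agent.Helper49.ND.Meas.A2char_le h0 h1 _ (Pool.Agent.Helper49.ND.Fin.wt_meas hd η)
    (Pool.Agent.Helper49.ND.Fin.wt_le hd h0) (Pool.Agent.Helper49.ND.Fin.wt_inv_le hd h0)).trans_lt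
    (ENNReal.mul_lt_top ENNReal.ofReal_lt_top ENNReal.ofReal_lt_top)

end Pool.Agent.Results.MP_f88263_an.EtaUnbounded
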